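import Mathlib
import Pool.Agent.TH623.Annulus

/-!
# Entire symplectomorphisms of the plane with non-trivial rotation domains (MP_d2e909_an)

The map `(x, y) ↦ (2x, y/2)` is an entire symplectomorphism of `ℝ²`. The punctured plane
`ℝ² ∖ {(0,0)}` is an invariant open annulus without periodic points, and the map is not
conjugate to a rotation on it, since the orbit of `(1, 0)` is unbounded.
-/

namespace Pool.Agent.Results.MP_d2e909_an.HyperbolicLinear

open Set

/-- `f : ℝ² → ℝ²` is entire: it extends to a holomorphic map `ℂ² → ℂ²`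
(and so is real-analytic). -/
def IsEntire (f : ℝ × ℝ → ℝ × ℝ) : Prop :=
  ∃ F : ℂ × ℂ → ℂ × ℂ, Differentiable ℂ F ∧
    ∀ x y : ℝ, F ((x : ℂ), (y : ℂ)) = (((f (x, y)).1 : ℂ), ((f (x, y)).2 : ℂ))

/-- `f` is a symplectomorphism of `(ℝ², dx ∧ dy)`: a smooth diffeomorphism whose Jacobian
determinant is `1` everywhere. -/
def IsSymplectomorphism (f : ℝ × ℝ → ℝ × ℝ) : Prop :=
  ContDiff ℝ (⊤ : ℕ∞) f ∧
    (∃ g : ℝ × ℝ → ℝ × ℝ, ContDiff ℝ (⊤ : ℕ∞) g ∧ Function.LeftInverse g f ∧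
      Function.RightInverse g f) ∧
    ∀ z, LinearMap.det ((fderiv ℝ f z : ℝ × ℝ →L[ℝ] ℝ × ℝ) : ℝ × ℝ →ₗ[ℝ] ℝ × ℝ) = 1

/-- `A` is an annular rotation domain of `f`: an open set homeomorphic to `ℝ/ℤ × (0,1)`, with
`f(A) = A`, containing no periodic point of `f`. -/
def IsAnnularRotationDomain (f : ℝ × ℝ → ℝ × ℝ) (A : Set (ℝ × ℝ)) : Prop :=
  IsOpen A ∧ Nonempty (A ≃ₜ AddCircle (1 : ℝ) × Ioo (0 : ℝ) 1) ∧ f '' A = A ∧
    ∀ z ∈ A, ∀ n : ℕ, 0 < n → f^[n] z ≠ z

/-- `A` is trivial: some homeomorphism `h : A → ℝ/ℤ × (0,1)` conjugates `f|_A` to a rotation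
`(θ, t) ↦ (θ + α, t)`. -/
def IsTrivial (f : ℝ × ℝ → ℝ × ℝ) (A : Set (ℝ × ℝ)) : Prop :=
  ∃ (h : A ≃ₜ AddCircle (1 : ℝ) × Ioo (0 : ℝ) 1) (α : AddCircle (1 : ℝ)),
    ∀ z w : A, f z = w → h w = ((h z).1 + α, (h z).2)

/-- The hyperbolic linear map. -/
noncomputable def f (z : ℝ × ℝ) : ℝ × ℝ := (2 * z.1, z.2 / 2)

lemma iter (n : ℕ) (z : ℝ × ℝ) : f^[n] z = (2 ^ n * z.1, z.2 / 2 ^ n) := by
  induction n with
  | zero => simp
  | succ n ih =>
    rw [Function.iterate_succ_apply', ih, f]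
    ext
    · simp only; ring
    · simp only; ring

lemma f_entire : IsEntire f := by
  refine ⟨fun z => (2 * z.1, z.2 / 2), by fun_prop, fun x y => ?_⟩
  simp [f]

lemma f_symplectic : IsSymplectomorphism f := by
  have hf : f = fun z : ℝ × ℝ => (2 * z.1, z.2 / 2) := rfl
  refine ⟨by rw [hf]; fun_prop, ⟨fun z => (z.1 / 2, 2 * z.2), by fun_prop, ?_, ?_⟩, ?_⟩
  · intro z
    simp only [f]
    ext
    · simp only; ring
    · simp only; ring
  · intro z
    simp only [f]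
    ext
    · simp only; ring
    · simp only; ring
  · intro z
    let L : ℝ × ℝ →L[ℝ] ℝ × ℝ :=
      ((2 : ℝ) • ContinuousLinearMap.fst ℝ ℝ ℝ).prod ((1 / 2 : ℝ) • ContinuousLinearMap.snd ℝ ℝ ℝ)
    have hL : f = L := by
      funext w
      simp only [f, L]
      ext
      · simp
      · simp; ring
    rw [hL, ContinuousLinearMap.fderiv]
    rw [← LinearMap.det_toMatrix (Module.Basis.finTwoProd ℝ), Matrix.det_fin_two]
    simp [LinearMap.toMatrix_apply, L]

/-- Q1 of MP_d2e909_an, answered yes: there is an entire symplectomorphism of `ℝ²` with a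
non-trivial annular rotation domain. -/
theorem result : ∃ f : ℝ × ℝ → ℝ × ℝ, IsEntire f ∧ IsSymplectomorphism f ∧
    ∃ A : Set (ℝ × ℝ), IsAnnularRotationDomain f A ∧ ¬ IsTrivial f A := by
  refine ⟨f, f_entire, f_symplectic, {0}ᶜ, ⟨isOpen_compl_singleton,
    Pool.Agent.TH623.Annulus.punctured_plane, ?_, ?_⟩, ?_⟩
  · obtain ⟨-, ⟨g, -, hl, hr⟩, -⟩ := f_symplectic
    rw [Set.image_compl_eq ⟨hl.injective, hr.surjective⟩, Set.image_singleton]
    simp [f]
  · intro z hz n hn h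
    rw [iter] at h
    have h1 := congrArg Prod.fst h
    have h2 := congrArg Prod.snd h
    simp only at h1 h2
    have h3 : (1 : ℝ) < 2 ^ n := one_lt_pow₀ (by norm_num) (by omega)
    have h4 : z.1 = 0 := by
      have : ((2 : ℝ) ^ n - 1) * z.1 = 0 := by linarith
      rcases mul_eq_zero.mp this with h | h
      · linarith
      · exact h
    have h5 : z.2 = 0 := by
      rw [div_eq_iff (by positivity)] at h2
      have : ((2 : ℝ) ^ n - 1) * z.2 = 0 := by linarith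
      rcases mul_eq_zero.mp this with h | h
      · linarith
      · exact h
    exact hz (Prod.ext h4 h5)
  · rintro ⟨h, α, hα⟩
    -- the orbit of `(1, 0)`
    let q : ℕ → ({0}ᶜ : Set (ℝ × ℝ)) := fun n => ⟨(2 ^ n, 0), by
      intro h0
      have : (2 : ℝ) ^ n = 0 := congrArg Prod.fst h0
      exact (pow_ne_zero n two_ne_zero) this⟩
    have hq : ∀ n, f (q n) = q (n + 1) := by
      intro n
      show f (2 ^ n, 0) = (2 ^ (n + 1), 0)
      simp only [f]
      ext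
      · simp only; ring
      · simp
    have hsnd : ∀ n, (h (q n)).2 = (h (q 0)).2 := by
      intro n
      induction n with
      | zero => rfl
      | succ n ih => rw [hα _ _ (hq n)]; exact ih
    -- compactness
    have hK : IsCompact (Set.univ ×ˢ {(h (q 0)).2} : Set (AddCircle (1 : ℝ) × Ioo (0 : ℝ) 1)) :=
      isCompact_univ.prod isCompact_singleton
    have hK2 : IsCompact ((fun w => ((h.symm w : ({0}ᶜ : Set (ℝ × ℝ))) : ℝ × ℝ)) ''
        (Set.univ ×ˢ {(h (q 0)).2})) :=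
      hK.image (continuous_subtype_val.comp h.symm.continuous)
    obtain ⟨C, hC⟩ := hK2.isBounded.exists_norm_le
    obtain ⟨n, hn⟩ := pow_unbounded_of_one_lt C (one_lt_two : (1 : ℝ) < 2)
    have hmem : ((q n : ({0}ᶜ : Set (ℝ × ℝ))) : ℝ × ℝ) ∈
        ((fun w => ((h.symm w : ({0}ᶜ : Set (ℝ × ℝ))) : ℝ × ℝ)) ''
        (Set.univ ×ˢ {(h (q 0)).2})) :=
      ⟨h (q n), ⟨Set.mem_univ _, hsnd n⟩, by simp⟩
    have h1 := hC _ hmem
    have h2 : ‖((2 : ℝ) ^ n, (0 : ℝ))‖ = 2 ^ n := by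
      rw [Prod.norm_def]
      simp
    have h3 : ((q n : ({0}ᶜ : Set (ℝ × ℝ))) : ℝ × ℝ) = ((2 : ℝ) ^ n, (0 : ℝ)) := rfl
    rw [h3, h2] at h1
    linarith

end Pool.Agent.Results.MP_d2e909_an.HyperbolicLinear
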